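import Pool.Agent.X82.HSz5

/-!
# MP_2870db_co: proper colourings with prescribed colour class sizes

Let `G` be a graph on `n` vertices with maximum degree `Δ`.  For every vector of natural numbers
`n 0, ..., n (q - 1)` with sum `n` and all entries at most `⌊n / (Δ + 1)⌋` there is a proper
colouring of `G` in which exactly `n i` vertices have colour `i`.  This answers Q1 affirmatively.
-/

set_option autoImplicit false

namespace Pool.Agent.Results.MP_2870db_co.PrescribedSizes

open Finset

theorem result (V : Type) [Fintype V] [DecidableEq V] (G : SimpleGraph V) [DecidableRel G.Adj]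
    (q : ℕ) (hq : 1 ≤ q) (n : Fin q → ℕ) (hsum : ∑ i, n i = Fintype.card V)
    (hn : ∀ i, n i ≤ Fintype.card V / (G.maxDegree + 1)) :
    ∃ σ : V → Fin q, (∀ x y, G.Adj x y → σ x ≠ σ y) ∧
      ∀ i, (univ.filter (fun x => σ x = i)).card = n i := by
  have hne : Nonempty (Fin q) := ⟨⟨0, hq⟩⟩
  obtain ⟨g, hg2, hg3⟩ := Pool.Agent.X82.HSz.exists_prescribed G univ n G.maxDegree
    (Fintype.card V / (G.maxDegree + 1))
    (fun x => ⟨G.neighborFinset x, G.degree_le_maxDegree x, fun y hxy => by
      rw [SimpleGraph.mem_neighborFinset]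
      exact hxy⟩)
    (fun i _ => hn i) hsum (Nat.div_mul_le_self _ _)
  exact ⟨g, hg2, fun i => hg3 i (mem_univ i)⟩

end Pool.Agent.Results.MP_2870db_co.PrescribedSizes
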